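import Pool.Agent.Y357.EN.Final

/-!
# Curves of star-shaped networks vanish under the elastic flow

The star with `n` arms: a centre and `n` arms, each consisting of a straight segment, which starts
at the centre, and a drop-shaped loop with both ends at the other end of the segment, a junction of
order three. The centre is a junction with natural conditions (then there are no fixed points at
all), a clamped junction, or, for `n = 1`, a fixed end point.
-/

set_option autoImplicit false

open Set Filter Topology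

namespace Pool.Agent.Results.MP_03af62_an.StarNetworks

open Pool.Agent.W785.EN (NetType Kind IsElasticFlow length dot)

/-- The star with `n` arms: curve `(j, 0)` is the loop of the arm `j`, both ends of it are at the
vertex `j`; curve `(j, 1)` is the segment of the arm `j`, from the vertex `j` to the centre. The
centre is the last vertex, it is of kind `κ`; the other vertices are junctions with natural
conditions. -/
def star (n : ℕ) (κ : Kind) : NetType (n * 2) (n + 1) where
  vert := fun i b => if (finProdFinEquiv.symm i).2 = 1 ∧ b = 1 then Fin.last n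
    else (finProdFinEquiv.symm i).1.castSucc
  kind := fun v => if v = Fin.last n then κ else Kind.junction

/-- the segment of the arm `j` -/
def seg {n : ℕ} (j : Fin n) : Fin (n * 2) := finProdFinEquiv (j, 1)

/-- the loop of the arm `j` -/
def loop {n : ℕ} (j : Fin n) : Fin (n * 2) := finProdFinEquiv (j, 0)

/-- the weights: the segment of the arm `j` has weight `‖v j‖`, the loop `m ‖v j‖` -/
noncomputable def wt (m : ℝ) {n : ℕ} (v : Fin n → ℂ) (i : Fin (n * 2)) : ℝ :=
  if (finProdFinEquiv.symm i).2 = 1 then ‖v (finProdFinEquiv.symm i).1‖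
  else m * ‖v (finProdFinEquiv.symm i).1‖

/-- There are universal constants `K, L, m > 0` such that, for all `n ≥ 1`, `T > 0`, nonzero
vectors `v j` of the plane, which are not all parallel and have sum zero if the centre is a junction
with natural conditions, and lengths `a j ≥ 0`, there is a smooth solution of the elastic flow on
`[0, T)` of the type of the star such that, with `d j = a j + K ‖v j‖ ^ (3/2) (T - t)`, at the time
`t` the curve `seg j` is the straight segment from `d j · v j / ‖v j‖` to the centre `0`, of length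
`d j`, and the curve `loop j` is a translate of itself at the time `0`, of length `L / √‖v j‖`. If
`a j = 0` no solution (with any weights) on a longer interval of time has the same length of the
curve `seg j` for all `t < T`. -/
theorem result : ∃ K > 0, ∃ L > 0, ∃ m > 0, ∀ (n : ℕ) (κ : Kind) (v : Fin n → ℂ) (a : Fin n → ℝ)
    (T : ℝ), 1 ≤ n → 0 < T → (∀ j, v j ≠ 0) → (∀ j, 0 ≤ a j) →
    (κ = Kind.junction → ∑ j, v j = 0 ∧ ∃ i j, dot (v i) (Complex.I * v j) ≠ 0) →
    (κ = Kind.navier → n = 1) →
    ∃ γ : Fin (n * 2) → ℝ → ℝ → ℂ,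
      IsElasticFlow (star n κ) (wt m v) T γ ∧ (∀ i, 0 < wt m v i) ∧
      (∀ j, ∀ t ∈ Ico 0 T, ∀ x, γ (seg j) t x =
        ((1 - x) * (a j + K * √‖v j‖ ^ 3 * (T - t))) • (‖v j‖⁻¹ • v j)) ∧
      (∀ j, ∀ t ∈ Ico 0 T, ∀ x, γ (loop j) t x =
        γ (loop j) 0 x - (K * √‖v j‖ ^ 3 * t) • (‖v j‖⁻¹ • v j)) ∧
      (∀ j, ∀ t ∈ Ico 0 T, length (γ (seg j) t) = a j + K * √‖v j‖ ^ 3 * (T - t)) ∧
      (∀ j, ∀ t ∈ Ico 0 T, length (γ (loop j) t) = L / √‖v j‖) ∧
      ∀ j, a j = 0 → ∀ T' > T, ∀ (μ' : Fin (n * 2) → ℝ) (γ' : Fin (n * 2) → ℝ → ℝ → ℂ),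
        IsElasticFlow (star n κ) μ' T' γ' →
          ¬ ∀ t ∈ Ico 0 T, length (γ' (seg j) t) = length (γ (seg j) t) := by
  obtain ⟨c, μ, S, l, φ, k, W, Z, x, y, hd⟩ := Pool.Agent.Y357.EN.exists_drop
  have hW := hd.W_l
  have hc := hd.c_pos
  have hl := hd.l_pos
  have hμ := hd.μ_pos
  have hQ0 : 0 < √(2 * W l) := Real.sqrt_pos.2 (by linarith)
  refine ⟨c / √(2 * W l) ^ 3, by positivity, 2 * l * √(2 * W l), by positivity,
    μ / √(2 * W l) ^ 2, by positivity, ?_⟩
  intro n κ v a T hn hT hv ha hj hnav
  choose g g1 g2 g3 g4 g5 g6 g7 using fun j => Pool.Agent.Y357.EN.arm hd (hv j) (ha j) hT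
  have hflow := Pool.Agent.Y357.EN.star_flow (κ := κ)
    (μ := fun j i => if i = 1 then ‖v j‖ else μ / √(2 * W l) ^ 2 * ‖v j‖)
    (u := fun j => -(‖v j‖⁻¹ • v j)) hn hT g1 ?_ g6 ?_ ?_ hnav
  · refine ⟨Pool.Agent.Y357.EN.starCurve n g, hflow, ?_, ?_, ?_, ?_, ?_, ?_⟩
    · intro i
      have h := norm_pos_iff.2 (hv (finProdFinEquiv.symm i).1)
      unfold wt
      split_ifs
      · exact h
      · exact mul_pos (by positivity) h
    · intro j t _ s
      unfold Pool.Agent.Y357.EN.starCurve seg
      rw [Equiv.symm_apply_apply]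
      exact g2 j t s
    · intro j t _ s
      unfold Pool.Agent.Y357.EN.starCurve loop
      rw [Equiv.symm_apply_apply]
      exact g3 j t s
    · intro j t ht
      unfold Pool.Agent.Y357.EN.starCurve seg
      rw [Equiv.symm_apply_apply]
      exact g4 j t ht
    · intro j t _
      unfold Pool.Agent.Y357.EN.starCurve loop
      rw [Equiv.symm_apply_apply]
      exact g5 j t
    · intro j haj T' hT' μ' γ' hγ' hcon
      refine Pool.Agent.W753.EN.Noext.main _ _ _ μ' T T' γ' hT hT' hγ' (seg j) ?_
      have h1 : Tendsto (fun t => c / √(2 * W l) ^ 3 * √‖v j‖ ^ 3 * (T - t)) (𝓝[<] T) (𝓝 0) := by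
        have : Tendsto (fun t => c / √(2 * W l) ^ 3 * √‖v j‖ ^ 3 * (T - t)) (𝓝 T)
            (𝓝 (c / √(2 * W l) ^ 3 * √‖v j‖ ^ 3 * (T - T))) := by
          apply Continuous.tendsto
          fun_prop
        rw [sub_self, mul_zero] at this
        exact this.mono_left nhdsWithin_le_nhds
      refine h1.congr' ?_
      filter_upwards [Ioo_mem_nhdsLT hT] with t ht
      rw [hcon t ⟨ht.1.le, ht.2⟩]
      unfold Pool.Agent.Y357.EN.starCurve seg
      rw [Equiv.symm_apply_apply]
      simp only
      rw [g4 j t ⟨ht.1.le, ht.2⟩, haj, zero_add]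
  · intro j t _
    rw [g2 j t 1, sub_self, zero_mul, zero_smul]
  · intro j t ht
    simp only [if_true]
    rw [g7 j t ht, smul_neg, neg_neg, smul_smul, mul_inv_cancel₀ (norm_ne_zero_iff.2 (hv j)),
      one_smul]
  · intro h
    obtain ⟨h1, i, j, hij⟩ := hj h
    refine ⟨?_, i, j, ?_⟩
    · simp only [if_true]
      have h2 : ∀ j, ‖v j‖ • -(‖v j‖⁻¹ • v j) = -v j := by
        intro j
        rw [smul_neg, smul_smul, mul_inv_cancel₀ (norm_ne_zero_iff.2 (hv j)), one_smul]
      rw [Finset.sum_congr rfl fun j _ => h2 j, Finset.sum_neg_distrib, h1, neg_zero]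
    · have e : dot (-(‖v i‖⁻¹ • v i)) (Complex.I * -(‖v j‖⁻¹ • v j)) =
          ‖v i‖⁻¹ * ‖v j‖⁻¹ * dot (v i) (Complex.I * v j) := by
        unfold dot
        simp only [Complex.neg_re, Complex.neg_im, Complex.smul_re, Complex.smul_im,
          Complex.mul_re, Complex.mul_im, smul_eq_mul]
        ring
      rw [e]
      have h2 := norm_pos_iff.2 (hv i)
      have h3 := norm_pos_iff.2 (hv j)
      exact mul_ne_zero (by positivity) hij

end Pool.Agent.Results.MP_03af62_an.StarNetworks
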